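import Mathlib
import Pool.Agent.N759.UC.Finite
import Pool.Agent.N759.UC.Paths

/-!
# MP_77d073_nt (three forms): only finitely many classes lack return-free boxes on long paths

Let `L 1, L 2, L 3` be real linear forms in three variables with determinant `±1` and product at
least `ε > 0` in absolute value at the nonzero integer points. For `(x, y)` in the plane let
`frame L x y` be the matrix of the forms `e^{-(x+y)} L 1`, `e^x L 2`, `e^y L 3`: the plane is the
group of the positive diagonal matrices of determinant one. Two matrices are `δ`-near if one is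
obtained from the other by a matrix `u` with off-diagonal entries at most `δ` and diagonal entries
between `1/2` and `2`, and by a change of the basis of the lattice of integer points. A near return
in a box `[s, s+T] × [t, t+T]` is a pair of times in the box, at distance at least one, whose
matrices are `δ`-near.

We show: for every `ε > 0` there is `κ > 0` such that for every `δ` in `(0, 1)` there are a length
`D` and a finite set `S` of systems as above, which all satisfy Oppenheim's conclusion, with the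
following property. If `L` is a system as above which is not equivalent to an element of `S`, then
every path in the plane, with steps at most one and with end points at distance at least `D`, passes
through a point `(s, t)` such that the box of side `κ log (1/δ)` at `(s, t)` has no near return.

This holds for all counterexamples to Oppenheim's conjecture, with the same `D`, and for all systems
with Oppenheim's conclusion outside finitely many classes. For a single system with Oppenheim's
conclusion all boxes have exact returns as soon as `κ log (1/δ)` exceeds the diameter of a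
fundamental domain of its group of periods, so the set `S` cannot be omitted.
-/

set_option autoImplicit false

namespace Pool.Agent.Results.MP_77d073_nt.ReturnFreeClasses

/-- the product of the linear forms with the coefficients `L i`, at an integer point -/
noncomputable def F (L : Fin 3 → Fin 3 → ℝ) (p : Fin 3 → ℤ) : ℝ :=
  ∏ i : Fin 3, ∑ j : Fin 3, L i j * (p j : ℝ)

/-- Oppenheim's conclusion: there is an irreducible RS-matrix whose invariant planes are the
hyperplanes `L i = 0`. -/
def HasMatrix (L : Fin 3 → Fin 3 → ℝ) : Prop :=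
  ∃ A : Matrix (Fin 3) (Fin 3) ℤ,
    A.det = 1 ∧
    Irreducible (A.charpoly.map (Int.castRingHom ℚ)) ∧
    (∀ z : ℂ, Polynomial.aeval z A.charpoly = 0 → z.im = 0) ∧
    ∀ i : Fin 3, ∀ x : Fin 3 → ℝ, ∑ j, L i j * x j = 0 →
      ∑ j, L i j * ((A.map (Int.cast : ℤ → ℝ)).mulVec x) j = 0

/-- the systems with determinant `±1` and product at least `ε` in absolute value at the nonzero
integer points -/
def System (ε : ℝ) : Set (Fin 3 → Fin 3 → ℝ) :=
  {L | |(Matrix.of L).det| = 1 ∧ ∀ p : Fin 3 → ℤ, p ≠ 0 → ε ≤ |F L p|}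

/-- `L` is obtained from `L'` by a diagonal matrix of determinant `±1` and a unimodular integral
substitution -/
def Equivalent (L L' : Fin 3 → Fin 3 → ℝ) : Prop :=
  ∃ (c : Fin 3 → ℝ) (γ : Matrix (Fin 3) (Fin 3) ℤ), |∏ i, c i| = 1 ∧ |γ.det| = 1 ∧
    ∀ i j, L i j = c i * ∑ k, L' i k * (γ k j : ℝ)

/-- the matrix of the forms `e^{-(x+y)} L 1`, `e^x L 2`, `e^y L 3` -/
noncomputable def frame (L : Fin 3 → Fin 3 → ℝ) (x y : ℝ) : Matrix (Fin 3) (Fin 3) ℝ :=
  Matrix.diagonal ![Real.exp (-(x + y)), Real.exp x, Real.exp y] * Matrix.of L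

/-- `h'` is obtained from `h` by a nearly diagonal matrix and a change of basis -/
def Near (δ : ℝ) (h h' : Matrix (Fin 3) (Fin 3) ℝ) : Prop :=
  ∃ (u : Matrix (Fin 3) (Fin 3) ℝ) (γ : Matrix (Fin 3) (Fin 3) ℤ), |γ.det| = 1 ∧
    h' = u * h * γ.map (Int.cast : ℤ → ℝ) ∧ (∀ i j, i ≠ j → |u i j| ≤ δ) ∧
    ∀ i, 1 / 2 ≤ u i i ∧ u i i ≤ 2

/-- the box of side `T` at `(s, t)` has no near return -/
def ReturnFree (L : Fin 3 → Fin 3 → ℝ) (δ T s t : ℝ) : Prop :=
  ∀ x ∈ Set.Icc s (s + T), ∀ y ∈ Set.Icc t (t + T),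
    ∀ x' ∈ Set.Icc s (s + T), ∀ y' ∈ Set.Icc t (t + T),
      (1 ≤ |x - x'| ∨ 1 ≤ |y - y'|) → ¬ Near δ (frame L x y) (frame L x' y')

lemma frame_eq (L : Fin 3 → Fin 3 → ℝ) (x y : ℝ) :
    frame L x y = Pool.Agent.Y906.GF.Lt (Matrix.of L) x y := by
  unfold frame Pool.Agent.Y906.GF.Lt
  congr 2
  funext i
  fin_cases i <;> rfl

/-- **Main result.** -/
theorem result (ε : ℝ) (hε : 0 < ε) : ∃ κ : ℝ, 0 < κ ∧ ∀ δ : ℝ, 0 < δ → δ < 1 →
    ∃ (D : ℝ) (S : Set (Fin 3 → Fin 3 → ℝ)), S.Finite ∧
      (∀ L ∈ S, L ∈ System ε ∧ HasMatrix L) ∧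
      ∀ L ∈ System ε, (HasMatrix L ∧ ∃ L' ∈ S, Equivalent L L') ∨
        ∀ (s t : ℕ → ℝ) (n : ℕ),
          (∀ k, k < n → |s (k + 1) - s k| ≤ 1 ∧ |t (k + 1) - t k| ≤ 1) →
          D ≤ max |s n - s 0| |t n - t 0| →
          ∃ k ≤ n, ReturnFree L δ (κ * Real.log (1 / δ)) (s k) (t k) := by
  classical
  obtain ⟨κ, hκ, H⟩ := Pool.Agent.N759.UC.paths_seq ε hε
  refine ⟨κ, hκ, fun δ h0 h1 => ?_⟩
  have hmat : ∀ L ∈ System ε, H715R2.PropInt (Matrix.of L) → HasMatrix L := by
    intro L hL hP
    have hdet : (Matrix.of L).det ≠ 0 := by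
      intro h0
      have h1 := hL.1
      rw [h0, abs_zero] at h1
      exact zero_ne_one h1
    exact Pool.Agent.H905R2.Opp.opp_of_propInt (by omega)
      (Matrix.linearIndependent_rows_iff_isUnit.2
        ((Matrix.isUnit_iff_isUnit_det _).2 (isUnit_iff_ne_zero.2 hdet)))
      ⟨ε, hε, hL.2⟩ hP
  obtain ⟨M, S, hS, hSm, hM⟩ := Pool.Agent.N759.UC.finite_classes 3 1 ε
    (fun g D => Pool.Agent.N759.UC.BadPath δ (κ * Real.log (1 / δ)) g D)
    (fun g D hD hg hnu hbad => H δ h0 h1 g D hD hg hnu hbad)
  refine ⟨M, S, hS, fun L hL => ?_, fun L hL => ?_⟩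
  · obtain ⟨h1, h2, h3⟩ := hSm L hL
    exact ⟨⟨h1, h2⟩, hmat L ⟨h1, h2⟩ h3⟩
  by_cases hbad : Pool.Agent.N759.UC.BadPath δ (κ * Real.log (1 / δ)) (Matrix.of L) M
  · left
    obtain ⟨h1, g', hg', c, γ, hc, hγ, hcγ⟩ := hM (Matrix.of L) hL.1 hL.2 hbad
    refine ⟨hmat L hL h1, g', hg', c, γ, hc, hγ, fun i j => ?_⟩
    have h2 := congrFun (congrFun hcγ i) j
    rw [Matrix.mul_assoc, Matrix.diagonal_mul, Matrix.mul_apply] at h2
    exact h2
  · right
    intro s t n hstep hfar
    by_contra hcon
    push Not at hcon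
    refine hbad ⟨s, t, n, hstep, hfar, fun k hk => ?_⟩
    have h2 := hcon k hk
    unfold ReturnFree at h2
    push Not at h2
    obtain ⟨x, hx, y, hy, x', hx', y', hy', hne, hnr⟩ := h2
    rw [frame_eq, frame_eq] at hnr
    exact ⟨x, y, x', y', hx, hy, hx', hy', hne, hnr⟩

end Pool.Agent.Results.MP_77d073_nt.ReturnFreeClasses
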