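import Mathlib
import Pool.Agent.N759.UC.Finite
import Pool.Agent.N759.UC.Values

/-! # MP_77d073_nt: systems with few small values form finitely many classes

Let `n ≥ 3`, `δ, ν > 0`, and let `T > (n! / n ^ n) δ`, or more generally let `T` be such that every
product of `n` real linear forms with absolute determinant `δ` takes a value of absolute value `< T`
at some nonzero integer point. Consider the systems `L` of `n` real linear forms with absolute
determinant `δ` whose product `F` has absolute value at least `ν` at the nonzero integer points.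

For every `K` there are `N`, `ε > 0` and a finite set `S` of such systems, which all satisfy
Oppenheim's conclusion, with the following property. Let `L` be such a system which is not
equivalent to an element of `S` (under diagonal matrices of determinant `±1` and `GL_n(ℤ)`). Then
every parallelepiped `|a_i L_i(p)| ≤ N` (`a` positive of product one) contains `K` nonzero integer
points at which the values of `|F|` are at most `T - ε` and differ pairwise by at least `ε`.

This holds in particular for all counterexamples to Oppenheim's conjecture, with the same `N` and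
`ε`. It is unconditional for the systems with Oppenheim's conclusion: for every `K` only finitely
many classes of them, with `|F| ≥ ν` at the nonzero integer points, have less than `K` values of
`|F|` below `T`. -/

set_option autoImplicit false

open Filter Topology

namespace Pool.Agent.Results.MP_77d073_nt.SmallValueClasses

/-- the product of the linear forms `L i` at an integer point -/
noncomputable def F {n : ℕ} (L : Fin n → Fin n → ℝ) (p : Fin n → ℤ) : ℝ :=
  ∏ i, ∑ j, L i j * (p j : ℝ)

/-- Oppenheim's conclusion: there is an irreducible RS-matrix whose invariant planes are the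
hyperplanes `L i = 0`. -/
def HasMatrix {n : ℕ} (L : Fin n → Fin n → ℝ) : Prop :=
  ∃ A : Matrix (Fin n) (Fin n) ℤ,
    A.det = 1 ∧
    Irreducible (A.charpoly.map (Int.castRingHom ℚ)) ∧
    (∀ z : ℂ, Polynomial.aeval z A.charpoly = 0 → z.im = 0) ∧
    ∀ i : Fin n, ∀ x : Fin n → ℝ, ∑ j, L i j * x j = 0 →
      ∑ j, L i j * ((A.map (Int.cast : ℤ → ℝ)).mulVec x) j = 0

/-- the systems with absolute determinant `δ` and product at least `ν` in absolute value at the
nonzero integer points -/
def System (n : ℕ) (δ ν : ℝ) : Set (Fin n → Fin n → ℝ) :=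
  {L | |(Matrix.of L).det| = δ ∧ ∀ p : Fin n → ℤ, p ≠ 0 → ν ≤ |F L p|}

/-- `T` is larger than Minkowski's bound, or every product of `n` linear forms with absolute
determinant `δ` takes a value of absolute value `< T` at a nonzero integer point -/
def Admissible (n : ℕ) (δ T : ℝ) : Prop :=
  (n.factorial : ℝ) * δ < (n : ℝ) ^ n * T ∨
    ∀ L : Fin n → Fin n → ℝ, |(Matrix.of L).det| = δ → ∃ p : Fin n → ℤ, p ≠ 0 ∧ |F L p| < T

/-- `L` is obtained from `L'` by a diagonal matrix of determinant `±1` and a unimodular integral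
substitution -/
def Equivalent {n : ℕ} (L L' : Fin n → Fin n → ℝ) : Prop :=
  ∃ (c : Fin n → ℝ) (γ : Matrix (Fin n) (Fin n) ℤ), |∏ i, c i| = 1 ∧ |γ.det| = 1 ∧
    ∀ i j, L i j = c i * ∑ k, L' i k * (γ k j : ℝ)

/-- There are `K` nonzero integer points `p` with `|a i * L i p| ≤ N` for all `i`, at which the
values of `|F|` are at most `T - ε` and differ pairwise by at least `ε`. -/
def ManyValues {n : ℕ} (L : Fin n → Fin n → ℝ) (a : Fin n → ℝ) (K : ℕ) (T N ε : ℝ) : Prop :=
  ∃ p : Fin K → Fin n → ℤ, (∀ j, p j ≠ 0) ∧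
    (∀ j i, |a i * ∑ k, L i k * (p j k : ℝ)| ≤ N) ∧ (∀ j, |F L (p j)| ≤ T - ε) ∧
    ∀ j j', j ≠ j' → ε ≤ abs (abs (F L (p j)) - abs (F L (p j')))

theorem result (n : ℕ) (hn : 3 ≤ n) (δ ν T : ℝ) (hδ : 0 < δ) (hν : 0 < ν)
    (hT : Admissible n δ T) (K : ℕ) :
    ∃ (N ε : ℝ) (S : Set (Fin n → Fin n → ℝ)), 0 < ε ∧ S.Finite ∧
      (∀ L ∈ S, L ∈ System n δ ν ∧ HasMatrix L) ∧
      ∀ L ∈ System n δ ν, (HasMatrix L ∧ ∃ L' ∈ S, Equivalent L L') ∨
        ∀ a : Fin n → ℝ, (∀ i, 0 < a i) → ∏ i, a i = 1 → ManyValues L a K T N ε := by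
  classical
  have hmat : ∀ L ∈ System n δ ν, H715R2.PropInt (Matrix.of L) → HasMatrix L := by
    intro L hL hP
    have hdet : (Matrix.of L).det ≠ 0 := by
      intro h0
      have h1 := hL.1
      rw [h0, abs_zero] at h1
      exact hδ.ne h1
    exact Pool.Agent.H905R2.Opp.opp_of_propInt (by omega)
      (Matrix.linearIndependent_rows_iff_isUnit.2
        ((Matrix.isUnit_iff_isUnit_det _).2 (isUnit_iff_ne_zero.2 hdet)))
      ⟨ν, hν, hL.2⟩ hP
  obtain ⟨M, S, hS, hSm, hM⟩ := Pool.Agent.N759.UC.finite_classes n δ ν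
    (fun g N => ∃ a : Fin n → ℝ, (∀ i, 0 < a i) ∧ ∏ i, a i = 1 ∧
      ¬ Pool.Agent.N759.UC.Many g a K T N (1 / ((N : ℝ) + 1)))
    (fun g N hN hg hnu hbad => by
      choose a ha0 ha1 ha using hbad
      exact Pool.Agent.N759.UC.values_seq hn hδ hν hT K g hg hnu N hN a ha0 ha1 ha)
  refine ⟨M, 1 / ((M : ℝ) + 1), S, by positivity, hS, fun L hL => ?_, fun L hL => ?_⟩
  · obtain ⟨h1, h2, h3⟩ := hSm L hL
    exact ⟨⟨h1, h2⟩, hmat L ⟨h1, h2⟩ h3⟩
  by_cases hbad : ∃ a : Fin n → ℝ, (∀ i, 0 < a i) ∧ ∏ i, a i = 1 ∧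
      ¬ Pool.Agent.N759.UC.Many (Matrix.of L) a K T M (1 / ((M : ℝ) + 1))
  · left
    obtain ⟨h1, g', hg', c, γ, hc, hγ, hcγ⟩ := hM (Matrix.of L) hL.1 hL.2 hbad
    refine ⟨hmat L hL h1, g', hg', c, γ, hc, hγ, fun i j => ?_⟩
    have h2 := congrFun (congrFun hcγ i) j
    rw [Matrix.mul_assoc, Matrix.diagonal_mul, Matrix.mul_apply] at h2
    exact h2
  · right
    intro a ha0 ha1
    by_contra hcon
    exact hbad ⟨a, ha0, ha1, hcon⟩

end Pool.Agent.Results.MP_77d073_nt.SmallValueClasses
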