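import Mathlib
import Pool.Agent.N759.FV.Dicho

/-! # MP_77d073_nt: many small values, or an RS-matrix with small eigenvalues

Let `n ≥ 3`, let `q` be the least prime factor of `n`, let `δ, ν > 0`, and let `T > (n! / n ^ n) δ`, or more generally let `T` be such that every
product of `n` real linear forms with absolute determinant `δ` takes a value of absolute value `< T`
at some nonzero integer point. Then there are `κ > 0` and `x₀`, such that for every system `L` of
`n` real linear forms with absolute determinant `δ` and product `F` at least `ν` in absolute value at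
the nonzero integer points, and for every `x ≥ x₀`, one of the following holds.

* There is `A ∈ SL(n, ℤ)` with irreducible characteristic polynomial and distinct eigenvalues
  between `exp (-x)` and `exp x`, whose invariant planes are the hyperplanes `L_i = 0`, and all
  values of `F` at the integer points are integral multiples of one number `η ≥ exp (-x)`.
* In every parallelepiped `|a_i L_i(p)| ≤ exp x` (`a` positive of product one) `|F|` takes at least
  `κ x ^ ((q - 1) / (q (n - 1)))` distinct values below `T` at nonzero integer points. The exponent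
  is `1 / n` if `n` is prime.

So the number of the small values of the norm form of a module in a totally real field of degree
`n`, with minimum at least `ν`, tends to infinity with the discriminant: if the values of `F` are
not multiples of a number `≥ exp (-x)`, there are at least `κ x ^ ((q - 1) / (q (n - 1)))` of them
in every such parallelepiped. For counterexamples to Oppenheim's conjecture the second case holds
for all `x ≥ x₀`.

The proof applies the pigeonhole principle to the points `a L` of the orbit with `a` in a lattice of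
rank `n - n / q` of the diagonal group, chosen so that the logarithm of an automorph with at most
`n / q` different eigenvalues is never close to a nonzero element of the lattice; the `n² - n` small
values used determine a system of given determinant locally. -/

set_option autoImplicit false

namespace Pool.Agent.Results.MP_77d073_nt.ValuesOrSmallMatrix

/-- the product of the linear forms `L i` at an integer point -/
noncomputable def F {n : ℕ} (L : Fin n → Fin n → ℝ) (p : Fin n → ℤ) : ℝ :=
  ∏ i, ∑ j, L i j * (p j : ℝ)

/-- the systems with absolute determinant `δ` and product at least `ν` in absolute value at the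
nonzero integer points -/
def System (n : ℕ) (δ ν : ℝ) : Set (Fin n → Fin n → ℝ) :=
  {L | |(Matrix.of L).det| = δ ∧ ∀ p : Fin n → ℤ, p ≠ 0 → ν ≤ |F L p|}

/-- `T` is larger than Minkowski's bound, or every product of `n` linear forms with absolute
determinant `δ` takes a value of absolute value `< T` at a nonzero integer point -/
def Admissible (n : ℕ) (δ T : ℝ) : Prop :=
  (n.factorial : ℝ) * δ < (n : ℝ) ^ n * T ∨
    ∀ L : Fin n → Fin n → ℝ, |(Matrix.of L).det| = δ → ∃ p : Fin n → ℤ, p ≠ 0 ∧ |F L p| < T

/-- Oppenheim's conclusion with an RS-matrix whose eigenvalues are between `exp (-x)` and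
`exp x` -/
def SmallMatrix {n : ℕ} (L : Fin n → Fin n → ℝ) (x : ℝ) : Prop :=
  ∃ (A : Matrix (Fin n) (Fin n) ℤ) (c : Fin n → ℝ), A.det = 1 ∧
    Irreducible (A.charpoly.map (Int.castRingHom ℚ)) ∧ Function.Injective c ∧
    (∀ i, Real.exp (-x) ≤ c i ∧ c i ≤ Real.exp x) ∧
    ∀ (i : Fin n) (y : Fin n → ℝ),
      ∑ j, L i j * ((A.map (Int.cast : ℤ → ℝ)).mulVec y) j = c i * ∑ j, L i j * y j

/-- all values of `F` at the integer points are integral multiples of one number
`η ≥ exp (-x)` -/
def Multiples {n : ℕ} (L : Fin n → Fin n → ℝ) (x : ℝ) : Prop :=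
  ∃ η : ℝ, Real.exp (-x) ≤ η ∧ ∀ p : Fin n → ℤ, ∃ z : ℤ, F L p = η * z

theorem result (n : ℕ) (hn : 3 ≤ n) (δ ν T : ℝ) (hδ : 0 < δ) (hν : 0 < ν)
    (hT : Admissible n δ T) :
    ∃ κ : ℝ, 0 < κ ∧ ∃ x₀ : ℝ, ∀ L ∈ System n δ ν, ∀ x : ℝ, x₀ ≤ x →
      (SmallMatrix L x ∧ Multiples L x) ∨
      ∀ a : Fin n → ℝ, (∀ i, 0 < a i) → ∏ i, a i = 1 →
        ∃ E : Finset ℝ, κ * x ^ (((n.minFac : ℝ) - 1) / (n.minFac * ((n : ℝ) - 1))) ≤ E.card ∧
          ∀ t ∈ E, ∃ p : Fin n → ℤ, p ≠ 0 ∧ (∀ i, |a i * ∑ j, L i j * (p j : ℝ)| ≤ Real.exp x) ∧
            |F L p| = t ∧ t < T := by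
  obtain ⟨κ, hκ, x₀, H⟩ := Pool.Agent.N759.FV.dichotomy2 hn hδ hν hT
  refine ⟨κ, hκ, x₀, fun L hL x hx => ?_⟩
  rcases H (Matrix.of L) hL.1 hL.2 x hx with h | h
  · left
    obtain ⟨A, c, η, hA, hirr, hc, hcb, hrel, hη, hz⟩ := h
    refine ⟨⟨A, c, hA, hirr, hc, hcb, fun i y => ?_⟩, η, hη, hz⟩
    have h1 := congrArg (fun M : Matrix (Fin n) (Fin n) ℝ => M.mulVec y) hrel
    simp only [← Matrix.mulVec_mulVec] at h1
    have h2 := congrFun h1 i
    rw [Matrix.mulVec_diagonal] at h2
    exact h2
  · right
    exact h

end Pool.Agent.Results.MP_77d073_nt.ValuesOrSmallMatrix
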