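import Mathlib
import Pool.Agent.N759.FV.Reg

/-! # MP_77d073_nt: the number of small values, the number of automorphs and the regulator

Let `n ≥ 3`, `δ, ν > 0`, and let `T > (n! / n ^ n) δ`, or more generally let `T` be such that every
product of `n` real linear forms with absolute determinant `δ` takes a value of absolute value `< T`
at some nonzero integer point. Then there are `κ > 0` and `x₀` such that the following holds for
every system `L` of `n` real linear forms with absolute determinant `δ` and product `F` at least `ν`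
in absolute value at the nonzero integer points.

(1) For every `x ≥ x₀` and all positive `a` of product one

`(number of automorphs) * (number of values) ^ (n ^ 2 - n) ≥ κ x ^ (n - 1)`,

where the automorphs are the `c` with `exp (-x) ≤ c_i ≤ exp x` for which `c_i L_i = L_i ∘ A` with
some `A ∈ SL(n, ℤ)`, and the values are the different numbers `|F(p)| < T` at the nonzero integer
points `p` of the parallelepiped `|a_i L_i(p)| ≤ exp x`.

(2) If the vectors `(log c_1, ..., log c_{n-1})`, `c` a positive automorph, lie in a lattice of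
`ℝ ^ (n - 1)` of covolume `R`, then `(number of values) ^ (n ^ 2 - n) ≥ κ R`, where now all values
`|F(p)| < T` are counted.

If `L` satisfies Oppenheim's conclusion, the vectors in (2) form a lattice, whose covolume is a
regulator (the one of the totally positive units of the ring of multipliers of a module in a totally
real field of degree `n`), and (2) bounds it by the number of the small values. If `L` has no
positive automorph except `c = 1`, as all counterexamples to Oppenheim's conjecture in prime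
dimension, (1) gives at least `κ' x ^ (1 / n)` values below `T` in every such parallelepiped.

The proof: each of about `x ^ (n - 1)` points of the orbit of `L` under the diagonal group is
determined, up to boundedly many possibilities and up to an automorph, by `n ^ 2 - n` small values;
so the most frequent list of values gives many automorphs. -/

set_option autoImplicit false

namespace Pool.Agent.Results.MP_77d073_nt.ValuesTimesAutomorphs

/-- the product of the linear forms `L i` at an integer point -/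
noncomputable def F {n : ℕ} (L : Fin n → Fin n → ℝ) (p : Fin n → ℤ) : ℝ :=
  ∏ i, ∑ j, L i j * (p j : ℝ)

/-- the systems with absolute determinant `δ` and product at least `ν` in absolute value at the
nonzero integer points -/
def System (n : ℕ) (δ ν : ℝ) : Set (Fin n → Fin n → ℝ) :=
  {L | |(Matrix.of L).det| = δ ∧ ∀ p : Fin n → ℤ, p ≠ 0 → ν ≤ |F L p|}

/-- `T` is larger than Minkowski's bound, or every product of `n` linear forms with absolute
determinant `δ` takes a value of absolute value `< T` at a nonzero integer point -/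
def Admissible (n : ℕ) (δ T : ℝ) : Prop :=
  (n.factorial : ℝ) * δ < (n : ℝ) ^ n * T ∨
    ∀ L : Fin n → Fin n → ℝ, |(Matrix.of L).det| = δ → ∃ p : Fin n → ℤ, p ≠ 0 ∧ |F L p| < T

/-- `c` is an automorph of `L` -/
def Automorph {n : ℕ} (L : Fin n → Fin n → ℝ) (c : Fin n → ℝ) : Prop :=
  ∃ A : Matrix (Fin n) (Fin n) ℤ, A.det = 1 ∧ ∀ (i : Fin n) (y : Fin n → ℝ),
    ∑ j, L i j * ((A.map (Int.cast : ℤ → ℝ)).mulVec y) j = c i * ∑ j, L i j * y j

/-- `t < T` is the absolute value of `F` at a nonzero integer point `p` with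
`|a_i L_i(p)| ≤ exp x` for all `i` -/
def SmallValue {n : ℕ} (L : Fin n → Fin n → ℝ) (a : Fin n → ℝ) (x T t : ℝ) : Prop :=
  t < T ∧ ∃ p : Fin n → ℤ, p ≠ 0 ∧ (∀ i, |a i * ∑ j, L i j * (p j : ℝ)| ≤ Real.exp x) ∧
    |F L p| = t

theorem result (n : ℕ) (hn : 3 ≤ n) (δ ν T : ℝ) (hδ : 0 < δ) (hν : 0 < ν)
    (hT : Admissible n δ T) :
    ∃ κ : ℝ, 0 < κ ∧ ∃ x₀ : ℝ, ∀ L ∈ System n δ ν,
      (∀ x : ℝ, x₀ ≤ x → ∀ a : Fin n → ℝ, (∀ i, 0 < a i) → ∏ i, a i = 1 →
        ∃ (C : Finset (Fin n → ℝ)) (E : Finset ℝ),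
          (∀ c ∈ C, Automorph L c ∧ ∀ i, Real.exp (-x) ≤ c i ∧ c i ≤ Real.exp x) ∧
          (∀ t ∈ E, SmallValue L a x T t) ∧
          κ * x ^ (n - 1) ≤ C.card * (E.card : ℝ) ^ (n ^ 2 - n)) ∧
      ∀ Λ : Submodule ℤ (Fin (n - 1) → ℝ), ∀ (_ : DiscreteTopology Λ) (_ : IsZLattice ℝ Λ),
        (∀ c : Fin n → ℝ, Automorph L c → (∀ i, 0 < c i) →
          (fun j : Fin (n - 1) => Real.log (c (Fin.castLE (Nat.sub_le n 1) j))) ∈ Λ) →
        ∃ E : Finset ℝ, (∀ t ∈ E, t < T ∧ ∃ p : Fin n → ℤ, p ≠ 0 ∧ |F L p| = t) ∧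
          κ * ZLattice.covolume Λ ≤ (E.card : ℝ) ^ (n ^ 2 - n) := by
  obtain ⟨κ, hκ, x₀, H⟩ := Pool.Agent.N759.FV.tradeoff hn hδ hν hT
  have hauto : ∀ (L : Fin n → Fin n → ℝ) (c : Fin n → ℝ),
      (∃ M : Matrix (Fin n) (Fin n) ℤ, M.det = 1 ∧
        (Matrix.of L) * H715R2.zR M = Matrix.diagonal c * (Matrix.of L)) ↔ Automorph L c := by
    intro L c
    constructor
    · rintro ⟨A, hA, hrel⟩
      refine ⟨A, hA, fun i y => ?_⟩
      have h1 := congrArg (fun M : Matrix (Fin n) (Fin n) ℝ => M.mulVec y) hrel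
      simp only [← Matrix.mulVec_mulVec] at h1
      have h2 := congrFun h1 i
      rw [Matrix.mulVec_diagonal] at h2
      exact h2
    · rintro ⟨A, hA, hrel⟩
      refine ⟨A, hA, ?_⟩
      apply Matrix.ext_of_mulVec_single
      intro k
      rw [← Matrix.mulVec_mulVec, ← Matrix.mulVec_mulVec]
      funext i
      rw [Matrix.mulVec_diagonal]
      exact hrel i _
  have hk : κ / 2 ^ (n - 1) ≤ κ := div_le_self hκ.le (one_le_pow₀ (by norm_num))
  refine ⟨κ / 2 ^ (n - 1), by positivity, max x₀ 0, fun L hL => ⟨?_, ?_⟩⟩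
  · intro x hx a ha0 ha1
    obtain ⟨E, C, hEC, hE, hC⟩ := H (Matrix.of L) hL.1 hL.2 x ((le_max_left _ _).trans hx) a ha0 ha1
    refine ⟨C, E, fun c hc => ⟨(hauto L c).1 (hC c hc).2, (hC c hc).1⟩, fun t ht => ?_, ?_⟩
    · obtain ⟨p, hp, hpx, hpt, htT⟩ := hE t ht
      exact ⟨htT, p, hp, hpx, hpt⟩
    · refine le_trans (mul_le_mul_of_nonneg_right hk ?_) hEC
      exact pow_nonneg ((le_max_right _ _).trans hx) _
  · intro Λ _ _ hΛ
    have hdet : (Matrix.of L).det ≠ 0 := by
      intro h0
      have h1 : |(Matrix.of L).det| = δ := hL.1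
      rw [h0, abs_zero] at h1
      exact hδ.ne h1
    refine Pool.Agent.N759.FV.regulator hn (x₀ := x₀) hκ hdet (fun x hx => ?_) Λ
      (fun c hc hM => hΛ c ((hauto L c).1 hM) hc)
    obtain ⟨E, C, hEC, hE, hC⟩ := H (Matrix.of L) hL.1 hL.2 x hx (fun _ => 1) (fun _ => one_pos)
      (by simp)
    refine ⟨E, C, hEC, fun t ht => ?_, hC⟩
    obtain ⟨p, hp, -, hpt, htT⟩ := hE t ht
    exact ⟨htT, p, hp, hpt⟩

end Pool.Agent.Results.MP_77d073_nt.ValuesTimesAutomorphs
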